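import Mathlib

set_option autoImplicit false

namespace Pool.Agent.Results.MP_b20271_lc.DirectProductNotTunable

/-- A partition `B` of `W` refines a partition `A` if every member of `A` is a union of
members of `B`. -/
def Refines {W : Type*} (B A : Set (Set W)) : Prop :=
  ∀ U ∈ A, ∃ S : Set (Set W), S ⊆ B ∧ U = ⋃₀ S

/-- A family `A` of subsets of `W` (in practice a partition) is tuned in the frame `(W, R)` if
for all `U, V ∈ A`: if some `u ∈ U` sees some `v ∈ V`, then every `u ∈ U` sees some `v ∈ V`. -/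
def Tuned {W : Type*} (R : W → W → Prop) (A : Set (Set W)) : Prop :=
  ∀ U ∈ A, ∀ V ∈ A, (∃ u ∈ U, ∃ v ∈ V, R u v) → ∀ u ∈ U, ∃ v ∈ V, R u v

/-- The frame `(W, R)` is tunable if every finite partition of `W` has a finite refinement
(again a partition of `W`) that is tuned in `(W, R)`.  Partitions are Mathlib's
`Setoid.IsPartition`: sets of nonempty subsets such that each point lies in exactly one of
them. -/
def Tunable {W : Type*} (R : W → W → Prop) : Prop :=
  ∀ A : Set (Set W), Setoid.IsPartition A → A.Finite →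
    ∃ B : Set (Set W), Setoid.IsPartition B ∧ B.Finite ∧ Refines B A ∧ Tuned R B

/-- The direct product of two frames: one relation, acting coordinatewise. -/
def DirectProduct {W₁ W₂ : Type*} (R₁ : W₁ → W₁ → Prop) (R₂ : W₂ → W₂ → Prop) :
    W₁ × W₂ → W₁ × W₂ → Prop :=
  fun x y => R₁ x.1 y.1 ∧ R₂ x.2 y.2

/-- The relation of the infinite fan on `Option ℕ`: the root `none` sees every point, and
every leaf `some n` sees only itself. -/
def FanRel (x y : Option ℕ) : Prop := x = none ∨ x = y

/-- Tunability from colourings with finite range. -/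
lemma tunable_of_fun {W : Type*} (R : W → W → Prop)
    (h : ∀ A : Set (Set W), Setoid.IsPartition A → A.Finite →
      ∃ (ι : Type _) (g : W → ι), (Set.range g).Finite ∧
        (∀ U ∈ A, ∀ x y, g x = g y → x ∈ U → y ∈ U) ∧
        (∀ x y x', R x y → g x' = g x → ∃ y', g y' = g y ∧ R x' y')) :
    Tunable R := by
  intro A hA hAf
  obtain ⟨ι, g, hfin, href, htun⟩ := h A hA hAf
  refine ⟨(fun i => g ⁻¹' {i}) '' Set.range g, ⟨?_, ?_⟩, hfin.image _, ?_, ?_⟩
  · rintro ⟨i, ⟨x, rfl⟩, hx⟩
    have : x ∈ (g ⁻¹' {g x} : Set W) := rfl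
    simp only at hx
    rw [hx] at this
    exact this
  · intro x
    refine ⟨g ⁻¹' {g x}, ⟨⟨g x, ⟨x, rfl⟩, rfl⟩, rfl⟩, ?_⟩
    rintro _ ⟨⟨i, ⟨y, rfl⟩, rfl⟩, hxy⟩
    have hxy' : g x = g y := hxy
    show g ⁻¹' {g y} = g ⁻¹' {g x}
    rw [hxy']
  · intro U hU
    refine ⟨(fun i => g ⁻¹' {i}) '' (g '' U), ?_, ?_⟩
    · exact Set.image_mono (Set.image_subset_range g U)
    · ext x
      constructor
      · intro hx
        exact ⟨g ⁻¹' {g x}, ⟨g x, ⟨x, hx, rfl⟩, rfl⟩, rfl⟩
      · rintro ⟨_, ⟨_, ⟨y, hy, rfl⟩, rfl⟩, hxy⟩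
        have hxy' : g x = g y := hxy
        exact href U hU y x hxy'.symm hy
  · rintro _ ⟨_, ⟨a, rfl⟩, rfl⟩ _ ⟨_, ⟨b, rfl⟩, rfl⟩ ⟨u, hu, v, hv, huv⟩ u' hu'
    have hu1 : g u = g a := hu
    have hv1 : g v = g b := hv
    have hu2 : g u' = g a := hu'
    obtain ⟨v', hv', hR⟩ := htun u v u' huv (by rw [hu2, hu1])
    exact ⟨v', by show g v' = g b; rw [hv', hv1], hR⟩

/-- `(ω, ≤)` is tunable. -/
lemma tunable_nat : Tunable (fun m n : ℕ => m ≤ n) := by
  apply tunable_of_fun
  intro A hA hAf
  classical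
  -- the block of a point
  choose blk hblk huniq using hA.2
  have hblkA : ∀ n, blk n ∈ A := fun n => (hblk n).1
  have hmem : ∀ n, n ∈ blk n := fun n => (hblk n).2
  have heq : ∀ n, ∀ U ∈ A, n ∈ U → U = blk n := fun n U hU hn => huniq n U ⟨hU, hn⟩
  -- a bound for the finite blocks
  have hfinU : (⋃₀ {U ∈ A | U.Finite}).Finite := by
    apply Set.Finite.sUnion (hAf.subset (Set.sep_subset _ _))
    intro U hU
    exact hU.2
  obtain ⟨N, hN⟩ := hfinU.bddAbove
  refine ⟨ℕ × Set ℕ, fun n => (if n ≤ N then n else N + 1, blk n), ?_, ?_, ?_⟩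
  · apply Set.Finite.subset ((Set.finite_Iic (N + 1)).prod hAf)
    rintro _ ⟨n, rfl⟩
    refine ⟨?_, hblkA n⟩
    show (if n ≤ N then n else N + 1) ∈ Set.Iic (N + 1)
    split_ifs with h
    · exact Set.mem_Iic.2 (by omega)
    · exact Set.mem_Iic.2 le_rfl
  · intro U hU x y hxy hx
    have h2 : blk x = blk y := (Prod.ext_iff.1 hxy).2
    have : U = blk x := heq x U hU hx
    rw [this, h2]
    exact hmem y
  · intro x y x' hxy hg
    have h1 : (if x' ≤ N then x' else N + 1) = (if x ≤ N then x else N + 1) :=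
      (Prod.ext_iff.1 hg).1
    by_cases hx : x ≤ N
    · have hx' : x' = x := by
        rw [if_pos hx] at h1
        split_ifs at h1 with h
        · exact h1
        · omega
      exact ⟨y, rfl, by rw [hx']; exact hxy⟩
    · have hyN : ¬ y ≤ N := by
        have : x ≤ y := hxy
        omega
      have hinf : (blk y).Infinite := by
        intro hf
        apply hyN
        apply hN
        exact ⟨blk y, ⟨hblkA y, hf⟩, hmem y⟩
      obtain ⟨z, hz, hzx⟩ := hinf.exists_gt (max x' N)
      refine ⟨z, ?_, ?_⟩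
      · have hb : blk z = blk y := (heq z (blk y) (hblkA y) hz).symm
        have hzN : ¬ z ≤ N := by
          have := le_max_right x' N
          omega
        show ((if z ≤ N then z else N + 1), blk z) = ((if y ≤ N then y else N + 1), blk y)
        rw [if_neg hzN, if_neg hyN, hb]
      · have := le_max_left x' N
        show x' ≤ z
        omega

/-- The infinite fan is tunable. -/
lemma tunable_fan : Tunable FanRel := by
  apply tunable_of_fun
  intro A hA hAf
  classical
  choose blk hblk huniq using hA.2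
  have hblkA : ∀ n, blk n ∈ A := fun n => (hblk n).1
  have hmem : ∀ n, n ∈ blk n := fun n => (hblk n).2
  have heq : ∀ n, ∀ U ∈ A, n ∈ U → U = blk n := fun n U hU hn => huniq n U ⟨hU, hn⟩
  refine ⟨Bool × Set (Option ℕ), fun x => (x.isNone, blk x), ?_, ?_, ?_⟩
  · apply Set.Finite.subset ((Set.toFinite (Set.univ : Set Bool)).prod hAf)
    rintro _ ⟨n, rfl⟩
    exact ⟨Set.mem_univ _, hblkA n⟩
  · intro U hU x y hxy hx
    have h2 : blk x = blk y := (Prod.ext_iff.1 hxy).2
    have : U = blk x := heq x U hU hx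
    rw [this, h2]
    exact hmem y
  · intro x y x' hxy hg
    have h1 : x'.isNone = x.isNone := (Prod.ext_iff.1 hg).1
    rcases hxy with hx | hx
    · have hx' : x' = none := by
        rw [hx] at h1
        simpa using h1
      exact ⟨y, rfl, Or.inl hx'⟩
    · exact ⟨x', by rw [← hx]; exact hg, Or.inr rfl⟩

/-- The product of `(ω, ≤)` with the fan is not tunable. -/
lemma not_tunable_prod : ¬ Tunable (DirectProduct (fun m n : ℕ => m ≤ n) FanRel) := by
  intro hT
  -- the two-element partition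
  let X : Set (ℕ × Option ℕ) := {p | ∃ f, p.2 = some f ∧ p.1 < f ∧ Odd p.1}
  have hX1 : X.Nonempty := ⟨(1, some 2), 2, rfl, by norm_num, by decide⟩
  have hX2 : Xᶜ.Nonempty := ⟨(0, none), by rintro ⟨f, hf, _⟩; cases hf⟩
  obtain ⟨B, hB, hBf, href, htun⟩ := hT {X, Xᶜ} (by
    refine ⟨?_, ?_⟩
    · rintro (h | h)
      · rw [← h] at hX1; exact Set.not_nonempty_empty hX1
      · rw [Set.mem_singleton_iff] at h
        rw [← h] at hX2; exact Set.not_nonempty_empty hX2
    · intro p
      by_cases hp : p ∈ X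
      · refine ⟨X, ⟨Or.inl rfl, hp⟩, ?_⟩
        rintro U ⟨hU | hU, hpU⟩
        · exact hU
        · rw [Set.mem_singleton_iff] at hU
          rw [hU] at hpU
          exact absurd hp hpU
      · refine ⟨Xᶜ, ⟨Or.inr rfl, hp⟩, ?_⟩
        rintro U ⟨hU | hU, hpU⟩
        · rw [hU] at hpU
          exact absurd hpU hp
        · exact hU) (Set.toFinite _)
  choose blk hblk huniq using hB.2
  have hblkB : ∀ p, blk p ∈ B := fun p => (hblk p).1
  have hmem : ∀ p, p ∈ blk p := fun p => (hblk p).2
  have heq : ∀ p, ∀ U ∈ B, p ∈ U → U = blk p := fun p U hU hp => huniq p U ⟨hU, hp⟩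
  -- blocks are monochromatic
  have hmono : ∀ p q, q ∈ blk p → (p ∈ X ↔ q ∈ X) := by
    have key : ∀ U ∈ ({X, Xᶜ} : Set (Set (ℕ × Option ℕ))), ∀ p q, q ∈ blk p → p ∈ U → q ∈ U := by
      intro U hU p q hq hp
      obtain ⟨S, hSB, hUS⟩ := href U hU
      rw [hUS] at hp ⊢
      obtain ⟨V, hVS, hpV⟩ := hp
      have : V = blk p := heq p V (hSB hVS) hpV
      exact ⟨V, hVS, by rw [this]; exact hq⟩
    intro p q hq
    constructor
    · exact key X (Or.inl rfl) p q hq
    · intro hqX
      by_contra hp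
      exact key Xᶜ (Or.inr rfl) p q hq hp hqX
  -- the fibre
  let N := hBf.toFinset.card
  let f := N + 1
  let b : ℕ → Set (ℕ × Option ℕ) := fun n => blk (n, some f)
  -- pigeonhole
  obtain ⟨n, m, hnm, hmf, hbnm⟩ : ∃ n m, n < m ∧ m < f ∧ b n = b m := by
    have := Finset.exists_ne_map_eq_of_card_lt_of_maps_to (s := Finset.range f)
      (t := hBf.toFinset) (f := b) (by
        rw [Finset.card_range]; exact Nat.lt_succ_self _) (by
        intro x _
        simpa using hblkB _)
    obtain ⟨x, hx, y, hy, hxy, hb⟩ := this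
    rw [Finset.mem_range] at hx hy
    rcases lt_or_gt_of_ne hxy with h | h
    · exact ⟨x, y, h, hy, hb⟩
    · exact ⟨y, x, h, hx, hb.symm⟩
  -- membership in X on the fibre
  have hXf : ∀ j, (j, some f) ∈ X ↔ (j < f ∧ Odd j) := by
    intro j
    constructor
    · rintro ⟨f', hf', h1, h2⟩
      have : f' = f := by
        have := Option.some.inj hf'
        exact this.symm
      subst this
      exact ⟨h1, h2⟩
    · rintro ⟨h1, h2⟩
      exact ⟨f, rfl, h1, h2⟩
  -- transfer along the fibre
  have htrans : ∀ i j k, i ≤ j → b k = b i → ∃ l, k ≤ l ∧ b l = b j := by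
    intro i j k hij hki
    obtain ⟨v, hv, hkv⟩ := htun (b i) (hblkB _) (b j) (hblkB _)
      ⟨(i, some f), hmem _, (j, some f), hmem _, hij, Or.inr rfl⟩ (k, some f)
      (by rw [← hki]; exact hmem _)
    obtain ⟨h1, h2⟩ := hkv
    have hv2 : v.2 = some f := by
      rcases h2 with h2 | h2
      · cases h2
      · exact h2.symm
    have hv' : v = (v.1, some f) := by
      rw [← hv2]
    refine ⟨v.1, h1, ?_⟩
    show blk (v.1, some f) = b j
    rw [← hv']
    exact (heq v (b j) (hblkB _) hv).symm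
  -- colours of n and n+1 differ
  have hcol : ¬ ((n, some f) ∈ X ↔ (n + 1, some f) ∈ X) := by
    rw [hXf, hXf]
    have h1 : n < f := by omega
    have h2 : n + 1 < f := by omega
    simp only [h1, h2, true_and]
    rw [Nat.odd_add_one]
    tauto
  have hne : b n ≠ b (n + 1) := by
    intro h
    apply hcol
    apply hmono
    show (n + 1, some f) ∈ b n
    rw [h]
    exact hmem _
  -- alternation goes on forever
  have hgo : ∀ j, (∃ l, j ≤ l ∧ b l = b n) ∧ (∃ l, j ≤ l ∧ b l = b (n + 1)) := by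
    intro j
    induction j with
    | zero => exact ⟨⟨n, Nat.zero_le _, rfl⟩, ⟨n + 1, Nat.zero_le _, rfl⟩⟩
    | succ j ih =>
      obtain ⟨⟨l, hl, hbl⟩, -⟩ := ih
      -- l in block of n; it sees l₁ in the block of n+1
      obtain ⟨l₁, hl₁, hbl₁⟩ := htrans n (n + 1) l (Nat.le_succ n) hbl
      have hl₁' : l < l₁ := by
        rcases Nat.lt_or_ge l l₁ with h | h
        · exact h
        · exfalso
          have : l₁ = l := le_antisymm h hl₁
          apply hne
          rw [← hbl, ← hbl₁, this]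
      obtain ⟨l₂, hl₂, hbl₂⟩ := htrans (n + 1) m l₁ hnm hbl₁
      exact ⟨⟨l₂, by omega, by rw [hbl₂, hbnm]⟩, ⟨l₁, by omega, hbl₁⟩⟩
  obtain ⟨⟨l, hl, hbl⟩, ⟨l', hl', hbl'⟩⟩ := hgo f
  have hl_not : (l, some f) ∉ X := by
    rw [hXf]; omega
  have hl'_not : (l', some f) ∉ X := by
    rw [hXf]; omega
  have e1 : ((n, some f) ∈ X ↔ (l, some f) ∈ X) := by
    apply hmono
    show (l, some f) ∈ b n
    rw [← hbl]
    exact hmem _
  have e2 : ((n + 1, some f) ∈ X ↔ (l', some f) ∈ X) := by
    apply hmono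
    show (l', some f) ∈ b (n + 1)
    rw [← hbl']
    exact hmem _
  apply hcol
  tauto

/-- **The direct product of two tunable frames need not be tunable.**  There are partial
orders `P` (a linear order) and `Q`, each with a least element, such that the frames `(P, ≤)`
and `(Q, ≤)` are tunable but their direct product is not. -/
theorem result :
    ∃ (P Q : Type) (_ : LinearOrder P) (_ : PartialOrder Q),
      (∃ r : P, ∀ x : P, r ≤ x) ∧ (∃ r : Q, ∀ x : Q, r ≤ x) ∧
      Tunable (fun x y : P => x ≤ y) ∧ Tunable (fun x y : Q => x ≤ y) ∧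
      ¬ Tunable (DirectProduct (fun x y : P => x ≤ y) (fun x y : Q => x ≤ y)) := by
  let iQ : PartialOrder (Option ℕ) :=
    { le := FanRel
      lt := fun x y => FanRel x y ∧ ¬ FanRel y x
      lt_iff_le_not_ge := fun _ _ => Iff.rfl
      le_refl := fun x => Or.inr rfl
      le_trans := by
        rintro x y z (h | h) (h' | h')
        · exact Or.inl h
        · exact Or.inl h
        · exact Or.inl (h.trans h')
        · exact Or.inr (h.trans h')
      le_antisymm := by
        rintro x y (h | h) (h' | h')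
        · rw [h, h']
        · exact h'.symm
        · exact h
        · exact h }
  exact ⟨ℕ, Option ℕ, inferInstance, iQ, ⟨0, Nat.zero_le⟩, ⟨none, fun x => Or.inl rfl⟩,
    tunable_nat, tunable_fan, not_tunable_prod⟩

end Pool.Agent.Results.MP_b20271_lc.DirectProductNotTunable
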